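import Mathlib

set_option autoImplicit false

/-!
# Separating partition regularity over bounded-degree polynomial sets

For `1 ≤ i < j` the pattern `{z x + y + (z x) ^ i y, z w}` appears in `P i`, is not partition regular
over `P i` and is partition regular over `P j`.

* In `P i`, if `(z x) ^ i y` has degree at most `i` in every variable, then `z x` and `y` have no
  common variable, and then `z x + y + (z x) ^ i y` is not a product of two elements of `P_∞`.
  So colouring by being such a product works.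
* In `P (i + 1)`, with variables `p, q, r`, one can take `z = p`, `x = q`, `y = p r`,
  `w = q + r + p ^ i q ^ i r`; then the two values of the pattern are equal. By the pigeonhole
  principle there are also monochromatic copies with two different values.
-/

namespace Pool.Agent.Results.MP_b358a5_co.SeparatingPatterns

open MvPolynomial

/-- `P d`: the nonzero polynomials in the indeterminates `x_0, x_1, x_2, …` with coefficients in
`ℕ`, zero constant term, and degree at most `d` in each single variable. -/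
def P (d : ℕ) : Set (MvPolynomial ℕ ℕ) :=
  {f | f ≠ 0 ∧ constantCoeff f = 0 ∧ ∀ n : ℕ, degreeOf n f ≤ d}

/-- The tuple `a` is a copy of the pattern `F` in `S`. -/
def IsCopy {m k : ℕ} (F : Fin k → MvPolynomial (Fin m) ℕ) (S : Set (MvPolynomial ℕ ℕ))
    (a : Fin m → MvPolynomial ℕ ℕ) : Prop :=
  (∀ t, a t ∈ S) ∧ ∀ l, aeval a (F l) ∈ S

/-- The pattern `F` is partition regular over `S`: every finite colouring of `S` has a
monochromatic copy of `F`. -/
def PartitionRegular {m k : ℕ} (F : Fin k → MvPolynomial (Fin m) ℕ)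
    (S : Set (MvPolynomial ℕ ℕ)) : Prop :=
  ∀ (r : ℕ) (c : S → Fin r), ∃ (a : Fin m → MvPolynomial ℕ ℕ) (h : IsCopy F S a),
    ∀ l l', c ⟨aeval a (F l), h.2 l⟩ = c ⟨aeval a (F l'), h.2 l'⟩

/-- The same with the additional requirement that the elements of the tuple are distinct and that
the values of the pattern are distinct. -/
def PartitionRegularDistinct {m k : ℕ} (F : Fin k → MvPolynomial (Fin m) ℕ)
    (S : Set (MvPolynomial ℕ ℕ)) : Prop :=
  ∀ (r : ℕ) (c : S → Fin r), ∃ (a : Fin m → MvPolynomial ℕ ℕ) (h : IsCopy F S a),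
    Function.Injective a ∧ (Function.Injective fun l => aeval a (F l)) ∧
    ∀ l l', c ⟨aeval a (F l), h.2 l⟩ = c ⟨aeval a (F l'), h.2 l'⟩

lemma mem_support_add {f g : MvPolynomial ℕ ℕ} {m : ℕ →₀ ℕ} :
    m ∈ (f + g).support ↔ m ∈ f.support ∨ m ∈ g.support := by
  simp only [MvPolynomial.mem_support_iff, MvPolynomial.coeff_add]
  omega

lemma mem_support_mul {f g : MvPolynomial ℕ ℕ} {m : ℕ →₀ ℕ} :
    m ∈ (f * g).support ↔ ∃ a ∈ f.support, ∃ b ∈ g.support, m = a + b := by
  classical
  constructor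
  · intro h
    have := MvPolynomial.support_mul f g h
    rw [Finset.mem_add] at this
    obtain ⟨a, ha, b, hb, hab⟩ := this
    exact ⟨a, ha, b, hb, hab.symm⟩
  · rintro ⟨a, ha, b, hb, rfl⟩
    rw [MvPolynomial.mem_support_iff, MvPolynomial.coeff_mul]
    intro h
    rw [Finset.sum_eq_zero_iff] at h
    have h1 := h (a, b) (by simp)
    rw [MvPolynomial.mem_support_iff] at ha hb
    rcases Nat.mul_eq_zero.1 h1 with h2 | h2
    · exact ha h2
    · exact hb h2

/-- Every exponent vector of `f ^ i`, `i ≥ 1`, is at least some exponent vector of `f`. -/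
lemma exists_le_of_mem_pow {f : MvPolynomial ℕ ℕ} {i : ℕ} (hi : 1 ≤ i) {m : ℕ →₀ ℕ}
    (hm : m ∈ (f ^ i).support) : ∃ e ∈ f.support, e ≤ m := by
  obtain ⟨i, rfl⟩ := Nat.exists_eq_add_of_le' hi
  rw [pow_succ'] at hm
  obtain ⟨a, ha, b, _, rfl⟩ := mem_support_mul.1 hm
  exact ⟨a, ha, le_self_add⟩

lemma zero_notMem {f : MvPolynomial ℕ ℕ} (h : constantCoeff f = 0) : 0 ∉ f.support := by
  rw [MvPolynomial.mem_support_iff]
  intro h1
  exact h1 h

/-- If `f` and `g` have no common variable, then `f + g + f ^ i g` is not a product of two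
polynomials with zero constant term. -/
lemma irred {f g b c : MvPolynomial ℕ ℕ} {i : ℕ} (hi : 1 ≤ i) (hf : f ≠ 0) (hg : g ≠ 0)
    (hfg : ∀ n, degreeOf n f = 0 ∨ degreeOf n g = 0)
    (hb : constantCoeff b = 0) (hc : constantCoeff c = 0) : f + g + f ^ i * g ≠ b * c := by
  classical
  intro h
  have hdeg : ∀ (p : MvPolynomial ℕ ℕ) (e : ℕ →₀ ℕ) (n : ℕ), e ∈ p.support → e n ≤ degreeOf n p := by
    intro p e n he
    rw [degreeOf_eq_sup]
    exact Finset.le_sup (f := fun m : ℕ →₀ ℕ => m n) he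
  have hsupp : ∀ e, e ∈ (b * c).support ↔ (e ∈ f.support ∨ e ∈ g.support) ∨
      e ∈ (f ^ i * g).support := by
    intro e
    rw [← h, mem_support_add, mem_support_add]
  obtain ⟨e, he⟩ := (support_nonempty (p := f)).2 hf
  obtain ⟨e', he'⟩ := (support_nonempty (p := g)).2 hg
  -- exponent vectors of `b` in the variables of `f`
  have hex : ∃ N : ℕ, ∃ m ∈ b.support, (∀ n, degreeOf n f = 0 → m n = 0) ∧ m.sum (fun _ t => t) = N := by
    obtain ⟨e1, h1, e2, h2, h12⟩ := mem_support_mul.1 ((hsupp e).2 (Or.inl (Or.inl he)))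
    refine ⟨_, e1, h1, fun n hn => ?_, rfl⟩
    have := hdeg f e n he
    rw [h12, Finsupp.add_apply] at this
    omega
  obtain ⟨m, hmb, hm0, hmN⟩ := Nat.find_spec hex
  have hmin := fun N => Nat.find_min (H := hex) (m := N)
  obtain ⟨e1, h1, e2, h2, h12⟩ := mem_support_mul.1 ((hsupp e').2 (Or.inl (Or.inr he')))
  have he2 : ∀ n, degreeOf n g = 0 → e2 n = 0 := by
    intro n hn
    have := hdeg g e' n he'
    rw [h12, Finsupp.add_apply] at this
    omega
  have hm_ne : m ≠ 0 := by
    rintro rfl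
    exact zero_notMem hb hmb
  have he2_ne : e2 ≠ 0 := by
    rintro rfl
    exact zero_notMem hc h2
  obtain ⟨n1, hn1⟩ := Finsupp.ne_iff.1 hm_ne
  obtain ⟨n2, hn2⟩ := Finsupp.ne_iff.1 he2_ne
  rw [Finsupp.coe_zero, Pi.zero_apply] at hn1 hn2
  have hn1f : degreeOf n1 f ≠ 0 := fun h => hn1 (hm0 _ h)
  have hn2g : degreeOf n2 g ≠ 0 := fun h => hn2 (he2 _ h)
  have hn1g : degreeOf n1 g = 0 := (hfg n1).resolve_left hn1f
  have hn2f : degreeOf n2 f = 0 := (hfg n2).resolve_right hn2g
  have hmem : m + e2 ∈ (b * c).support := mem_support_mul.2 ⟨m, hmb, e2, h2, rfl⟩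
  rcases (hsupp _).1 hmem with (h3 | h3) | h3
  · have := hdeg f _ n2 h3
    rw [Finsupp.add_apply] at this
    omega
  · have := hdeg g _ n1 h3
    rw [Finsupp.add_apply] at this
    omega
  · obtain ⟨u, hu, v, hv, huv⟩ := mem_support_mul.1 h3
    obtain ⟨e3, he3, hle⟩ := exists_le_of_mem_pow hi hu
    -- `e3 ≤ m`
    have hle' : e3 ≤ m := by
      intro n
      by_cases hn : degreeOf n f = 0
      · have := hdeg f e3 n he3
        omega
      · have hng : degreeOf n g = 0 := (hfg n).resolve_left hn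
        have e1 := hle n
        have e4 := DFunLike.congr_fun huv n
        have e5 := he2 n hng
        rw [Finsupp.add_apply, Finsupp.add_apply] at e4
        omega
    obtain ⟨p1, hp1, p2, hp2, hp12⟩ := mem_support_mul.1 ((hsupp e3).2 (Or.inl (Or.inl he3)))
    have hp2_ne : p2 ≠ 0 := by
      rintro rfl
      exact zero_notMem hc hp2
    have hp1f : ∀ n, degreeOf n f = 0 → p1 n = 0 := by
      intro n hn
      have := hdeg f e3 n he3
      rw [hp12, Finsupp.add_apply] at this
      omega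
    refine hmin (p1.sum fun _ t => t) ?_ ⟨p1, hp1, hp1f, rfl⟩
    rw [← hmN]
    have h5 : p1 + p2 ≤ m := hp12 ▸ hle'
    obtain ⟨d, hd⟩ := exists_add_of_le h5
    have hsum : ∀ a b : ℕ →₀ ℕ, (a + b).sum (fun _ t => t) = a.sum (fun _ t => t) +
        b.sum (fun _ t => t) := fun a b => Finsupp.sum_add_index' (fun _ => rfl) (fun _ _ _ => rfl)
    rw [hd, hsum, hsum]
    have h6 : 0 < p2.sum (fun _ t => t) := by
      obtain ⟨n, hn⟩ := Finsupp.ne_iff.1 hp2_ne
      rw [Finsupp.coe_zero, Pi.zero_apply] at hn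
      refine lt_of_lt_of_le (Nat.pos_of_ne_zero hn) ?_
      exact Finset.single_le_sum (f := fun n => p2 n) (fun _ _ => Nat.zero_le _)
        (Finsupp.mem_support_iff.2 hn)
    omega

/-- The pattern `{z x + y + (z x) ^ i y, z w}`, with `z, x, y, w` numbered `0, 1, 2, 3`. -/
noncomputable def pat (i : ℕ) : Fin 2 → MvPolynomial (Fin 4) ℕ :=
  ![X 0 * X 1 + X 2 + (X 0 * X 1) ^ i * X 2, X 0 * X 3]

lemma pat0 (i : ℕ) (a : Fin 4 → MvPolynomial ℕ ℕ) :
    aeval a (pat i 0) = a 0 * a 1 + a 2 + (a 0 * a 1) ^ i * a 2 := by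
  simp [pat]

lemma pat1 (i : ℕ) (a : Fin 4 → MvPolynomial ℕ ℕ) : aeval a (pat i 1) = a 0 * a 3 := by
  simp [pat]

lemma not_pr {i : ℕ} (hi : 1 ≤ i) : ¬ PartitionRegular (pat i) (P i) := by
  classical
  intro h
  obtain ⟨a, ha, hc⟩ := h 2 fun f => if ∃ b c : MvPolynomial ℕ ℕ, constantCoeff b = 0 ∧
    constantCoeff c = 0 ∧ (f : MvPolynomial ℕ ℕ) = b * c then 1 else 0
  have h1 := hc 0 1
  have h2 : ∃ b c : MvPolynomial ℕ ℕ, constantCoeff b = 0 ∧
      constantCoeff c = 0 ∧ aeval a (pat i 1) = b * c :=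
    ⟨a 0, a 3, (ha.1 0).2.1, (ha.1 3).2.1, pat1 i a⟩
  rw [if_pos h2] at h1
  have h3 : ∃ b c : MvPolynomial ℕ ℕ, constantCoeff b = 0 ∧
      constantCoeff c = 0 ∧ aeval a (pat i 0) = b * c := by
    by_contra hcon
    rw [if_neg hcon] at h1
    exact absurd h1 (by decide)
  obtain ⟨b, c, hb, hc', hbc⟩ := h3
  rw [pat0] at hbc
  have hf : a 0 * a 1 ≠ 0 := mul_ne_zero (ha.1 0).1 (ha.1 1).1
  have hg : a 2 ≠ 0 := (ha.1 2).1
  refine irred hi hf hg (fun n => ?_) hb hc' hbc
  have h4 := (ha.2 0).2.2 n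
  rw [pat0] at h4
  have h5 : degreeOf n ((a 0 * a 1) ^ i * a 2) ≤ i := by
    refine le_trans ?_ h4
    rw [degreeOf_eq_sup, degreeOf_eq_sup]
    refine Finset.sup_mono fun e he => ?_
    rw [mem_support_add]
    exact Or.inr he
  rw [degreeOf_mul_eq (pow_ne_zero _ hf) hg, degreeOf_pow_eq _ _ _ hf] at h5
  rcases Nat.eq_zero_or_pos (degreeOf n (a 0 * a 1)) with h6 | h6
  · exact Or.inl h6
  · right
    have : i * 1 ≤ i * degreeOf n (a 0 * a 1) := Nat.mul_le_mul_left _ h6
    omega

/-- The tuple used in `P j`. -/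
noncomputable def tup (i n m : ℕ) : Fin 4 → MvPolynomial ℕ ℕ :=
  ![X 0, X (2 * n + 1), X 0 * X (2 * n + 2),
    X (2 * m + 1) + X (2 * m + 2) + X 0 ^ i * X (2 * m + 1) ^ i * X (2 * m + 2)]

/-- The value. -/
noncomputable def val (i n : ℕ) : MvPolynomial ℕ ℕ :=
  X 0 * (X (2 * n + 1) + X (2 * n + 2) + X 0 ^ i * X (2 * n + 1) ^ i * X (2 * n + 2))

lemma tup0 (i n m : ℕ) : aeval (tup i n m) (pat i 0) = val i n := by
  rw [pat0]
  simp only [tup, val, Matrix.cons_val]
  ring

lemma tup1 (i n m : ℕ) : aeval (tup i n m) (pat i 1) = val i m := by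
  rw [pat1]
  simp [tup, val]

lemma deg_w (i n v : ℕ) (hi : 1 ≤ i) : degreeOf v (X (2 * n + 1) + X (2 * n + 2) +
    X 0 ^ i * X (2 * n + 1) ^ i * X (2 * n + 2) : MvPolynomial ℕ ℕ) ≤ i := by
  have h1 := degreeOf_add_le v (X (2 * n + 1) + X (2 * n + 2) : MvPolynomial ℕ ℕ)
    (X 0 ^ i * X (2 * n + 1) ^ i * X (2 * n + 2))
  have h2 := degreeOf_add_le v (X (2 * n + 1) : MvPolynomial ℕ ℕ) (X (2 * n + 2))
  have h3 := degreeOf_mul_le v (X 0 ^ i * X (2 * n + 1) ^ i : MvPolynomial ℕ ℕ) (X (2 * n + 2))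
  have h4 := degreeOf_mul_le v (X 0 ^ i : MvPolynomial ℕ ℕ) (X (2 * n + 1) ^ i)
  have h5 := degreeOf_pow_le v (X 0 : MvPolynomial ℕ ℕ) i
  have h6 := degreeOf_pow_le v (X (2 * n + 1) : MvPolynomial ℕ ℕ) i
  simp only [degreeOf_X] at h1 h2 h3 h4 h5 h6
  by_cases e0 : v = 0
  · simp only [e0] at *
    simp at h2 h3 h4 h5 h6 h1
    omega
  · by_cases e1 : v = 2 * n + 1
    · simp only [e1] at *
      simp at h2 h3 h4 h5 h6 h1
      omega
    · simp only [e0, e1, if_false, mul_zero] at h1 h2 h3 h4 h5 h6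
      by_cases e2 : v = 2 * n + 2
      · simp only [e2, if_true] at h1 h2 h3 h4 h5 h6 ⊢
        omega
      · simp only [e2, if_false] at h1 h2 h3 h4 h5 h6
        omega

lemma w_ne (i n : ℕ) : (X (2 * n + 1) + X (2 * n + 2) +
    X 0 ^ i * X (2 * n + 1) ^ i * X (2 * n + 2) : MvPolynomial ℕ ℕ) ≠ 0 := by
  intro h
  have := congrArg (eval fun _ => 1) h
  simp at this

lemma w_mem {i j : ℕ} (hi : 1 ≤ i) (hj : i < j) (n : ℕ) : (X (2 * n + 1) + X (2 * n + 2) +
    X 0 ^ i * X (2 * n + 1) ^ i * X (2 * n + 2) : MvPolynomial ℕ ℕ) ∈ P j := by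
  refine ⟨w_ne i n, ?_, fun v => ?_⟩
  · simp
  · exact (deg_w i n v hi).trans hj.le

lemma val_mem {i j : ℕ} (hi : 1 ≤ i) (hj : i < j) (n : ℕ) : val i n ∈ P j := by
  refine ⟨mul_ne_zero (X_ne_zero _) (w_ne i n), ?_, fun v => ?_⟩
  · simp [val]
  · unfold val
    refine (degreeOf_mul_le _ _ _).trans ?_
    have h1 := deg_w i n v hi
    have h2 : degreeOf v (X 0 : MvPolynomial ℕ ℕ) ≤ 1 := by
      rw [degreeOf_X]
      split_ifs <;> omega
    omega

lemma X_mem (j v : ℕ) (hj : 1 ≤ j) : (X v : MvPolynomial ℕ ℕ) ∈ P j := by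
  refine ⟨X_ne_zero _, by simp, fun n => ?_⟩
  rw [degreeOf_X]
  split_ifs <;> omega

lemma XX_mem (j v v' : ℕ) (hj : 2 ≤ j) : (X v * X v' : MvPolynomial ℕ ℕ) ∈ P j := by
  refine ⟨mul_ne_zero (X_ne_zero _) (X_ne_zero _), by simp, fun n => ?_⟩
  refine (degreeOf_mul_le _ _ _).trans ?_
  rw [degreeOf_X, degreeOf_X]
  split_ifs <;> omega

lemma tup_copy {i j : ℕ} (hi : 1 ≤ i) (hj : i < j) (n m : ℕ) :
    IsCopy (pat i) (P j) (tup i n m) := by
  constructor
  · intro t
    fin_cases t
    · exact X_mem j 0 (by omega)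
    · exact X_mem j _ (by omega)
    · exact XX_mem j _ _ (by omega)
    · exact w_mem hi hj m
  · intro l
    fin_cases l
    · show aeval (tup i n m) (pat i 0) ∈ P j
      rw [tup0]
      exact val_mem hi hj n
    · show aeval (tup i n m) (pat i 1) ∈ P j
      rw [tup1]
      exact val_mem hi hj m

lemma val_inj (i : ℕ) : Function.Injective (val i) := by
  intro n m h
  by_contra hne
  have h1 := congrArg (eval fun v => if v = 0 ∨ v = 2 * n + 1 then 1 else 0) h
  have h3 : ¬ 2 * m + 2 = 2 * n + 1 := by omega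
  simp [val, h3] at h1
  exact hne h1.symm

lemma tup_inj (i n m : ℕ) (hnm : n ≠ m) : Function.Injective (tup i n m) := by
  have e2 : ¬ 2 * m + 2 = 2 * n + 1 := by omega
  have e5 : ¬ 2 * n + 2 = 2 * m + 1 := by omega
  have hmn : ¬ m = n := fun h => hnm h.symm
  have key : ∀ s t : Fin 4, s < t → tup i n m s ≠ tup i n m t := by
    intro s t hst h
    have h0 := congrArg (eval fun v => if v = 0 then 1 else 0) h
    have h1 := congrArg (eval fun v => if v = 2 * n + 1 then 1 else 0) h
    have h2 := congrArg (eval fun v => if v = 2 * m + 1 then 1 else 0) h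
    fin_cases s <;> fin_cases t <;>
      first
        | exact absurd hst (by decide)
        | (simp [tup] at h0; done)
        | (simp [tup, e2, hmn] at h1; done)
        | (simp [tup, e5] at h2)
  intro s t h
  rcases lt_trichotomy s t with hst | hst | hst
  · exact absurd h (key s t hst)
  · exact hst
  · exact absurd h.symm (key t s hst)

lemma pr_distinct {i j : ℕ} (hi : 1 ≤ i) (hj : i < j) : PartitionRegularDistinct (pat i) (P j) := by
  intro r c
  obtain ⟨n, m, hnm, h⟩ := Finite.exists_ne_map_eq_of_infinite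
    (fun n => c ⟨val i n, val_mem hi hj n⟩)
  have hv : ∀ l l' : Fin 2, l < l' →
      aeval (tup i n m) (pat i l) = val i n ∧ aeval (tup i n m) (pat i l') = val i m := by
    intro l l' hl
    have h0 : l = 0 := by omega
    have h1 : l' = 1 := by omega
    subst h0 h1
    exact ⟨tup0 i n m, tup1 i n m⟩
  refine ⟨tup i n m, tup_copy hi hj n m, tup_inj i n m hnm, ?_, ?_⟩
  · intro l l' hl
    rcases lt_trichotomy l l' with h1 | h1 | h1
    · have := hv l l' h1
      exact absurd (val_inj i (this.1.symm.trans (hl.trans this.2))) hnm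
    · exact h1
    · have := hv l' l h1
      exact absurd (val_inj i (this.1.symm.trans (hl.symm.trans this.2))) hnm
  · have key : ∀ l l' : Fin 2, l < l' →
        c ⟨aeval (tup i n m) (pat i l), (tup_copy hi hj n m).2 l⟩ =
          c ⟨aeval (tup i n m) (pat i l'), (tup_copy hi hj n m).2 l'⟩ := by
      intro l l' hl
      have h2 := hv l l' hl
      have e1 : (⟨aeval (tup i n m) (pat i l), (tup_copy hi hj n m).2 l⟩ : P j) =
          ⟨val i n, val_mem hi hj n⟩ := Subtype.ext h2.1
      have e2 : (⟨aeval (tup i n m) (pat i l'), (tup_copy hi hj n m).2 l'⟩ : P j) =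
          ⟨val i m, val_mem hi hj m⟩ := Subtype.ext h2.2
      rw [e1, e2]
      exact h
    intro l l'
    rcases lt_trichotomy l l' with h1 | h1 | h1
    · exact key l l' h1
    · rw [h1]
    · exact (key l' l h1).symm

lemma appears {i : ℕ} (hi : 1 ≤ i) : ∃ a, IsCopy (pat i) (P i) a := by
  refine ⟨fun t => X (t : ℕ), fun t => X_mem i _ hi, fun l => ?_⟩
  fin_cases l
  · show aeval _ (pat i 0) ∈ P i
    rw [pat0]
    refine ⟨?_, ?_, fun v => ?_⟩
    · intro h
      have := congrArg (eval fun _ => 1) h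
      simp at this
    · simp
    · refine (degreeOf_add_le _ _ _).trans (max_le ?_ ?_)
      · refine (degreeOf_add_le _ _ _).trans (max_le ?_ ?_)
        · refine (degreeOf_mul_le _ _ _).trans ?_
          rw [degreeOf_X, degreeOf_X]
          simp only [Fin.val_zero, Fin.val_one]
          split_ifs <;> omega
        · rw [degreeOf_X]
          split_ifs <;> omega
      · refine (degreeOf_mul_le _ _ _).trans ?_
        have h1 := degreeOf_pow_le v (X (((0 : Fin 4) : ℕ)) * X ((1 : Fin 4) : ℕ) :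
          MvPolynomial ℕ ℕ) i
        have h2 := degreeOf_mul_le v (X (((0 : Fin 4) : ℕ)) : MvPolynomial ℕ ℕ)
          (X ((1 : Fin 4) : ℕ))
        have h3 : degreeOf v (X ((2 : Fin 4) : ℕ) : MvPolynomial ℕ ℕ) = if v = 2 then 1 else 0 := by
          rw [degreeOf_X]; rfl
        rw [h3]
        rw [degreeOf_X, degreeOf_X] at h2
        simp only [Fin.val_zero, Fin.val_one] at h2 h1 ⊢
        by_cases e2 : v = 2
        · rw [if_neg (by omega), if_neg (by omega)] at h2
          rw [if_pos e2]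
          have h4 : degreeOf v (X 0 * X 1 : MvPolynomial ℕ ℕ) = 0 := by omega
          rw [h4] at h1
          omega
        · rw [if_neg e2]
          have h4 : degreeOf v (X 0 * X 1 : MvPolynomial ℕ ℕ) ≤ 1 := by
            refine h2.trans ?_
            split_ifs <;> omega
          have := Nat.mul_le_mul_left i h4
          omega
  · show aeval _ (pat i 1) ∈ P i
    rw [pat1]
    refine ⟨mul_ne_zero (X_ne_zero _) (X_ne_zero _), by simp, fun v => ?_⟩
    refine (degreeOf_mul_le _ _ _).trans ?_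
    have h3 : degreeOf v (X ((3 : Fin 4) : ℕ) : MvPolynomial ℕ ℕ) = if v = 3 then 1 else 0 := by
      rw [degreeOf_X]; rfl
    have h0 : degreeOf v (X ((0 : Fin 4) : ℕ) : MvPolynomial ℕ ℕ) = if v = 0 then 1 else 0 := by
      rw [degreeOf_X]; rfl
    rw [h3, h0]
    split_ifs <;> omega

/-- For all `1 ≤ i < j` there is a pattern (a finite family `F` of nonzero polynomials with
coefficients in `ℕ` and zero constant term) which appears in `P i`, is partition regular over
`P j`, even with distinct entries and distinct values, and is not partition regular over `P i`. -/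
theorem result (i j : ℕ) (hi : 1 ≤ i) (hj : i < j) :
    ∃ (m k : ℕ) (F : Fin k → MvPolynomial (Fin m) ℕ),
      (∀ l, F l ≠ 0 ∧ constantCoeff (F l) = 0) ∧
      (∃ a, IsCopy F (P i) a) ∧
      PartitionRegular F (P j) ∧ PartitionRegularDistinct F (P j) ∧
      ¬ PartitionRegular F (P i) := by
  refine ⟨4, 2, pat i, ?_, appears hi, ?_, pr_distinct hi hj, not_pr hi⟩
  · intro l
    fin_cases l
    · constructor
      · intro h
        have := congrArg (eval fun _ => 1) h
        simp [pat] at this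
      · simp [pat]
    · constructor
      · exact mul_ne_zero (X_ne_zero _) (X_ne_zero _)
      · simp [pat]
  · intro r c
    obtain ⟨a, h, _, _, h'⟩ := pr_distinct hi hj r c
    exact ⟨a, h, h'⟩

end Pool.Agent.Results.MP_b358a5_co.SeparatingPatterns
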